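import Mathlib
import Pool.Agent.TH115.GD.Defs
import Pool.Agent.TH115.ID.Defs
import Pool.Agent.R939.EI.Tw1
import Pool.Agent.R939.KM.Km2

/-!
# The Tate conjecture at 2 for almost all the covers `t ↦ tᵐ` of an elliptic surface

Let `k` be a number field, `K = k(t)`, `F = k'(t)` with `k'` a separable closure of `k`, and let
`E : y² = x (x² + a x + b)` be an elliptic curve over `K`, `a`, `b` polynomials. `TateAtTwo` says that
all the classes in `V₂ Sel(E / F)` which are fixed by the Galois group of `k` come from `E(K)`: this is
the Tate conjecture for divisors and the prime 2 on the elliptic surface over the projective line with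
generic fibre `E`.

Theorem. Let `b` and `a² - 4 b` satisfy the condition `NotNorm` (not a constant times a square or times
a norm of a polynomial over a quadratic extension of `k`), let `OnlyTrivial` hold for `(a, b)` and for
`(-2 a, a² - 4 b)`, the curve isogenous to `E`; all this holds for example if `b` and `a² - 4 b` are
irreducible of odd degree and `b` does not divide `a`. Let `D ≠ 0` be a polynomial (for example
`D = 1`) such that `b` and `a² - 4 b` are not squares modulo any prime which divides `D`. Suppose that
no root of `b (a² - 4 b) D` is zero or a root of unity. Then there is a positive integer `N` such that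
for all `m` prime to `N` and all constants `c ≠ 0` the Tate conjecture at 2 holds for the quadratic
twist by `c D(tᵐ)` of the base change of `E` by `t ↦ tᵐ`.

So one surface gives surfaces of unbounded genus: all its pullbacks by `t ↦ tᵐ` with `m` prime to `N`,
in particular for all but finitely many of the primes `m` and their powers.

Proof. By `Pool.Agent.Results.MP_17a657_ag.TwistsByInertPrimes` it is enough that the primes which
divide `b (a² - 4 b) D` remain prime after `t ↦ tᵐ`. By the theorem of Vahlen and Capelli this holds
if the root of the prime in the field generated by it is not an `ℓ`-th power for the primes `ℓ` which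
divide `m`. An element of a number field which is not zero and not a root of unity is an `ℓ`-th power
only for finitely many `ℓ`, by the theorem of Northcott (`Pool.Agent.R939.KM.Km2`).
-/

namespace Pool.Agent.Results.MP_97f789_ag.AllCoprimeCovers

open Polynomial Pool.Agent.TH115.GD Pool.Agent.R939.EI

theorem result {k k' K F : Type} [Field k] [NumberField k] [Field k'] [Algebra k k'] [Field K]
    [Algebra k[X] K] [Field F] [Algebra k'[X] F] [IsFractionRing k'[X] F] [Algebra K F]
    (hT : IsTower k k' K F) {a b D : k[X]} (hNb : NotNorm b) (hNd : NotNorm (a ^ 2 - 4 * b))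
    (hO : OnlyTrivial a b) (hO' : OnlyTrivial (-2 * a) (a ^ 2 - 4 * b)) (hD : InertIn a b D)
    (h0 : ∀ n : ℕ, 0 < n → IsCoprime (b * (a ^ 2 - 4 * b) * D) (X * (X ^ n - 1))) :
    ∃ N : ℕ, N ≠ 0 ∧ ∀ m : ℕ, Nat.Coprime m N → ∀ c : k, c ≠ 0 →
      TateAtTwo (F := F) k' (crvT (algebraMap k[X] K ((C c * (a * D)).comp (X ^ m)))
        (algebraMap k[X] K ((C (c ^ 2) * (b * D ^ 2)).comp (X ^ m)))) :=
  Pool.Agent.R939.KM.coprime_covers hT hNb hNd hO hO' hD h0

end Pool.Agent.Results.MP_97f789_ag.AllCoprimeCovers
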