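import Mathlib
import Pool.Agent.TH115.GD.Defs
import Pool.Agent.TH115.ID.Defs
import Pool.Agent.R939.EI.Tw1
import Pool.Agent.R939.EI.Den2
import Pool.Agent.R939.BC.Pairs

/-!
# The Tate conjecture at 2 for almost all twists of almost all base changes of an elliptic surface

Let `k` be a number field, `K = k(t)`, `F = k'(t)` with `k'` a separable closure of `k`, and let
`E : y² = x (x² + a x + b)` be an elliptic curve over `K`, `a`, `b` polynomials. `TateAtTwo` says that
all the classes in `V₂ Sel(E / F)` which are fixed by the Galois group of `k` come from `E(K)`: this is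
the Tate conjecture for divisors and the prime 2 on the elliptic surface over the projective line with
generic fibre `E`.

Theorem. Let `b` and `a² - 4 b` satisfy the condition `NotNorm` (not a constant times a square or times
a norm of a polynomial over a quadratic extension of `k`), and let `OnlyTrivial` hold for `(a, b)` and
for `(-2 a, a² - 4 b)`, the curve isogenous to `E`; all this holds for example if `b` and `a² - 4 b` are
irreducible of odd degree and `b` does not divide `a`. Let `m` be odd and `n₁, …, n_u ≥ 1` (the case
`u = 0` is allowed). Then for 100 percent of the tuples `(h, D₁, …, D_u)` of polynomials of degrees at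
most `m, n₁, …, n_u` with coefficients in the ring of integers of `k`, ordered by the maximum of the
coordinates of the coefficients, the following holds with `D = D₁ … D_u`: `h` has degree `m`, and for
ALL constants `c ≠ 0` the Tate conjecture at 2 holds for the base change by `t ↦ h(t)` of the twist of
`E` by `c D`, that is, for `y² = x (x² + c a(h) D(h) x + c² b(h) D(h)²)`.

For `u = 0` this says that the Tate conjecture at 2 holds for 100 percent of the base changes of `E` by
polynomials of any given odd degree, and for all their twists by constants. The geometric genus tends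
to infinity with `m` and with the degree of `D`.

Proof. By `Pool.Agent.Results.MP_17a657_ag.TwistsByInertPrimes` it is enough that `b` and `a² - 4 b`
are not squares modulo the primes which divide `D` and that the primes which divide
`b (a² - 4 b) D` remain prime after `t ↦ h(t)`. If a fixed prime `q` does not remain prime for a set of
polynomials `h` of positive upper density, then by a transfer principle (`Pool.Agent.R939.BC.Tr`) the
equation `h(θ) = α`, with `α` a root of `q` and `h` the generic polynomial over `k`, has a solution of
degree less than `m` over the constants `L = k(α)`. The solution can be specialized to local fields in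
which `α` is a `p`-adic integer and `h` is close to `t ^ m + α + p`; then `θ ^ m` is `-p` times a unit,
and the ramification is at least `m`, a contradiction.
-/

namespace Pool.Agent.Results.MP_97f789_ag.AlmostAllTwistsAndCovers

open Polynomial NumberField Pool.Agent.TH115.GD Pool.Agent.R939.EI

theorem result {k k' K F : Type} [Field k] [NumberField k] [Field k'] [Algebra k k'] [Field K]
    [Algebra k[X] K] [Field F] [Algebra k'[X] F] [IsFractionRing k'[X] F] [Algebra K F]
    (hT : IsTower k k' K F) {J : Type} [Fintype J] (B : Module.Basis J ℤ (𝓞 k)) {a b : k[X]}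
    (hNb : NotNorm b) (hNd : NotNorm (a ^ 2 - 4 * b))
    (hO : OnlyTrivial a b) (hO' : OnlyTrivial (-2 * a) (a ^ 2 - 4 * b)) {m : ℕ} (hm : Odd m)
    {u : ℕ} {n : Fin u → ℕ} (hn : ∀ l, 1 ≤ n l) {η : ℝ} (hη : 0 < η) :
    ∃ H0 : ℕ, ∀ H : ℕ, H0 ≤ H →
      (({x : (Fin (m + 1) → 𝓞 k) × ((l : Fin u) → Fin (n l + 1) → 𝓞 k) |
        ((∀ j t, |B.repr (x.1 j) t| ≤ (H : ℤ)) ∧ ∀ l j t, |B.repr (x.2 l j) t| ≤ (H : ℤ)) ∧
        ¬ ((polA fun j => algebraMap (𝓞 k) k (x.1 j)).natDegree = m ∧
          ∀ c : k, c ≠ 0 → TateAtTwo (F := F) k' (crvT
            (algebraMap k[X] K ((C c * (a * ∏ l, polA fun j => algebraMap (𝓞 k) k (x.2 l j))).comp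
              (polA fun j => algebraMap (𝓞 k) k (x.1 j))))
            (algebraMap k[X] K ((C (c ^ 2) * (b * (∏ l, polA fun j => algebraMap (𝓞 k) k (x.2 l j))
              ^ 2)).comp (polA fun j => algebraMap (𝓞 k) k (x.1 j))))))}.ncard : ℕ) : ℝ) ≤
        η * (2 * H + 1) ^ (Fintype.card J * ((m + 1) + ∑ l, (n l + 1))) :=
  Pool.Agent.R939.BC.fixed_pairs hT B hNb hNd hO hO' hm hn hη

end Pool.Agent.Results.MP_97f789_ag.AlmostAllTwistsAndCovers
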