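import Pool.Agent.R915.It.Ex

/-!
# The Tate conjecture at 2 for the base changes by all composites of the polynomials `tᵐ + c`

Let `k` be a number field, `K = k(t)`, `F = k'(t)` with `k'` a separable closure of `k`, and let
`E : y² = x (x² + a x + b)` be an elliptic curve over `K`, `a`, `b` polynomials. `TateAtTwo` says that
all the classes in `V₂ Sel(E / F)` which are fixed by the Galois group of `k` come from `E(K)`: this is
the Tate conjecture for divisors and the prime 2 on the elliptic surface over the projective line with
generic fibre `E`.

Theorem. Let `b` and `a² - 4 b` satisfy the condition `NotNorm` (not a constant times a square or times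
a norm of a polynomial over a quadratic extension of `k`), let `OnlyTrivial` hold for `(a, b)` and for
`(-2 a, a² - 4 b)`, the curve isogenous to `E`; all this holds for example if `b` and `a² - 4 b` are
irreducible of odd degree. Let `D ≠ 0` be a polynomial (for example `D = 1`) such that `b` and
`a² - 4 b` are not squares modulo any prime which divides `D`. Let `M` be a set of prime numbers and `S`
a subring of `k` such that the values `π(w)`, `w` in `S`, of the monic prime factors `π` of
`b (a² - 4 b) D` are not `ℓ`-th powers in `k`, for all `ℓ` in `M` (`NonResidue`). Then for ALL the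
polynomials `h` which are composites of polynomials `tᵐ + c`, with arbitrary `c` in `S` and odd `m` whose
prime factors are in `M`, the Tate conjecture at 2 holds for the base change of `E` by `t ↦ h(t)`, for
its twist by `D(h)` and for all the twists by constants.

For `S` one can take the elements of `k` which are integral at a place `v`: the condition has to be
checked only modulo `v` (`Pool.Agent.R915.It.NonResidueAt.nonResidue`), at finitely many elements of the
residue field, and `S` contains all the algebraic integers of `k`.

Example. Over the rational numbers, for all composites `h` of polynomials `t ^ (3 ^ j) + c` with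
arbitrary rational numbers `c` whose denominators are prime to `7`, and for all `e ≠ 0`, the Tate
conjecture at 2 holds for `y² = x (x² + 2 e x + e² (h(t)³ + 4))`: modulo `7` the values of
`t³ + 4` are `3, 4, 5` and those of `t³ + 3` are `2, 3, 4`, and the cubes are `0, 1, 6`.

So one surface and one place give all the layers of the towers of covers of the line defined by iteration
of the polynomials `tᵐ + c`; the monodromy groups of these covers are not abelian, and the geometric
genus tends to infinity.

Proof. By `Pool.Agent.R939.EI.twist_main` (proof of `MP_17a657_ag.TwistsByInertPrimes`) it is enough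
that the primes which divide `b (a² - 4 b) D` remain prime after `t ↦ h(t)`. If `f` is monic and
irreducible and `x` is a root of `f`, then `f(tᵐ + c)` is irreducible if `x - c` is not an `ℓ`-th power in
`k(x)` for the primes `ℓ` which divide `m` (Vahlen, Capelli; `m` is odd), and the norm of `c - x` is
`f(c)`. For `f = π(h)` this is the value of `π` at `h(c)`, an element of `S`.
-/

namespace Pool.Agent.Results.MP_97f789_ag.CompositeCovers

open Polynomial Pool.Agent.TH115.GD Pool.Agent.R939.EI Pool.Agent.R915.It

theorem result :
    -- number fields
    (∀ {k k' K F : Type} [Field k] [NumberField k] [Field k'] [Algebra k k'] [Field K]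
      [Algebra k[X] K] [Field F] [Algebra k'[X] F] [IsFractionRing k'[X] F] [Algebra K F]
      (_ : IsTower k k' K F) {a b D : k[X]} (_ : NotNorm b) (_ : NotNorm (a ^ 2 - 4 * b))
      (_ : OnlyTrivial a b) (_ : OnlyTrivial (-2 * a) (a ^ 2 - 4 * b)) (_ : InertIn a b D)
      (M : Set ℕ) (S : Subring k) (_ : NonResidue M (S : Set k) (b * (a ^ 2 - 4 * b) * D))
      (h : k[X]) (_ : IsComposite M (S : Set k) h) (e : k) (_ : e ≠ 0),
      TateAtTwo (F := F) k' (crvT (algebraMap k[X] K ((C e * (a * D)).comp h))
        (algebraMap k[X] K ((C (e ^ 2) * (b * D ^ 2)).comp h)))) ∧
    -- an example over the rational numbers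
    (∀ {k' K F : Type} [Field k'] [Algebra ℚ k'] [Field K] [Algebra ℚ[X] K] [Field F]
      [Algebra k'[X] F] [IsFractionRing k'[X] F] [Algebra K F] (_ : IsTower ℚ k' K F)
      (h : ℚ[X]) (_ : IsComposite {3} {c : ℚ | ‖(c : ℚ_[7])‖ ≤ 1} h) (e : ℚ) (_ : e ≠ 0),
      TateAtTwo (F := F) k' (crvT (algebraMap ℚ[X] K (C (2 * e)))
        (algebraMap ℚ[X] K (C (e ^ 2) * (h ^ 3 + 4))))) :=
  ⟨fun hT _ _ _ hNb hNd hO hO' hD _ _ hN _ hh _ he =>
      main hT two_ne_zero hNb hNd hO hO' hD hN hh he,
    fun hT _ hh _ he => example7 hT hh he⟩

end Pool.Agent.Results.MP_97f789_ag.CompositeCovers
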