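import Pool.Agent.R299.TDF.Main

/-!
# The Tate conjecture for divisors over number fields from one fibre, smooth or degenerate

Let `K` be a number field, `S` a smooth geometrically connected variety over `K`, `𝒳 → S` a smooth
projective family, and `ℓ` a prime. Let `s` be **one** point.

* *smooth fibre*: `s` is a rational point of `S` such that the Tate conjecture for divisors holds for the
  fibre `X_s`; or
* *degenerate fibre*: `s` is a rational point of a partial compactification of a curve `S` (or the
  generic point of a divisor on a partial compactification of `S`) over which the fibre is strictly
  semistable, and the Tate conjecture for divisors holds for its components `Y_i`.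

**Theorem.**

1. All classes in `H²(\bar X_{s'}, ℚ_ℓ(1))` which are fixed by the Galois group of `K` are combinations of
   classes of divisors over `K`, for **all** rational points `s'` of `S` outside of a thin set, if
   `S` is rational: the Tate conjecture holds for almost all members of the family. (By
   Hilbert's irreducibility theorem and Serre's theorem on Frattini subgroups, the Galois group of `K`,
   acting on the fibre over `s'`, has the same image as the fundamental group `G` of `S`.)
2. For **every** rational point `s'` of `S`, without exception, the Galois invariant classes in
   `H²(\bar X_{s'}, ℚ_ℓ(1))` which are also invariant under the geometric monodromy group are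
   combinations of classes of divisors over `K`.
3. The Tate conjecture for divisors holds for the generic fibre over the function field of `S`.
4. The classes which are fixed by the monodromy group and by the Galois group at the **one** point `s` are
   algebraic.

For instance, the Tate conjecture for divisors holds for almost all the members of every smooth
projective family over an open subset of the projective line over `K` with one semistable degeneration
to a union of rational varieties, toric varieties, abelian varieties, products of curves, or K3
surfaces, whatever the other fibres and the monodromy are. In the degenerate case nothing is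
assumed for smooth fibres.

For smooth fibres results of type 3 are known (Tate, André, Moonen, Ambrosi: the Tate conjecture for
divisors over finitely generated fields follows from the one over number fields); the degenerate case
is new, as far as I know.

The hypotheses `IsFamily` and `IsFibre` are well known theorems (comparison isomorphisms, theorem of the
fixed part, limit mixed Hodge structure, weight spectral sequence, Lefschetz theorem on (1,1)-classes);
see the docstrings of the definitions.

The proof: let `x` be fixed by `G`. The coordinates of `x` in a basis of `ℚ_ℓ` over `ℚ` are classes in `E`
which are invariant under the monodromy, so they belong to `W₀`, and their images in `T` are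
the coordinates of the image of `x`, which is fixed by `H`. By the Tate conjecture for the fibre the
coordinates are mapped to algebraic classes, so they are algebraic by the theorem of Lefschetz. Finally
the coordinates are fixed by `G`, since `G` acts on the classes of divisors.
-/

set_option autoImplicit false

namespace Pool.Agent.Results.MP_97f789_ag.OneFibreForDivisors

open TensorProduct Pool.Agent.R299.TDF

/-- **The Tate conjecture for divisors from one fibre, smooth or degenerate.** -/
theorem result {F G P E T : Type} [Field F] [Algebra ℚ F] [Group G] [Group P]
    [AddCommGroup E] [Module ℚ E] [AddCommGroup T] [Module ℚ T]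
    -- the family
    (ρ : Representation F G (F ⊗[ℚ] E)) (top : P →* G) (mon : Representation ℚ P E)
    (NSg NS : Submodule ℚ E) (hfam : IsFamily ρ top mon NSg NS)
    -- the fibre
    (H : Subgroup G) (W₀ : Submodule ℚ E) (τ : Representation F H (F ⊗[ℚ] T))
    (A : Submodule ℚ T) (j : W₀ →ₗ[ℚ] T) (hfib : IsFibre ρ mon NSg H W₀ τ A j)
    (hT : TateConjecture τ A) :
    -- almost all fibres: `H'` has the same fixed classes as `G`
    (∀ H' : Subgroup G, (∀ x, (∀ h ∈ H', ρ h x = x) → ∀ g, ρ g x = x) →
      ∀ x, (∀ h ∈ H', ρ h x = x) → x ∈ spanF F NS) ∧
    -- all fibres: `H'` and the monodromy group have together the same fixed classes as `G`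
    (∀ H' : Subgroup G,
      (∀ x, (∀ γ, ρ (top γ) x = x) → (∀ h ∈ H', ρ h x = x) → ∀ g, ρ g x = x) →
      ∀ x, (∀ γ, ρ (top γ) x = x) → (∀ h ∈ H', ρ h x = x) → x ∈ spanF F NS) ∧
    -- the generic fibre
    TateConjecture ρ NS ∧
    -- classes fixed by the monodromy and the Galois group at `s`
    (∀ x, (∀ γ, ρ (top γ) x = x) → (∀ h ∈ H, ρ h x = x) → x ∈ spanF F NSg) := by
  have h1 : ∀ x, (∀ g, ρ g x = x) → x ∈ spanF F NS := fun x hx =>
    main_fixed hfam (main hfam hfib hT (fun γ => hx _) fun h _ => hx h) hx
  exact ⟨fun H' hH' x hx => h1 x (hH' x hx), fun H' hH' x hx hx2 => h1 x (hH' x hx hx2), h1,
    fun x hx hx2 => main hfam hfib hT hx hx2⟩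

end Pool.Agent.Results.MP_97f789_ag.OneFibreForDivisors
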